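import Mathlib
import Pool.Agent.Lib.lead.OneStep2
import Pool.Agent.Lib.lead.PrimFun

set_option autoImplicit false

namespace Pool.Agent.Results.MP_342291_lc.Positive

/-- Terms over the signature `S` (with arities `ar`) and the set of variables `V`;
ground terms are `Tm ar Empty`. -/
inductive Tm {S : Type} (ar : S → ℕ) (V : Type) : Type
  | var (v : V) : Tm ar V
  | app (f : S) (args : Fin (ar f) → Tm ar V) : Tm ar V

/-- Application of a substitution. -/
def Tm.subst {S : Type} {ar : S → ℕ} {V W : Type} (σ : V → Tm ar W) : Tm ar V → Tm ar W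
  | .var v => σ v
  | .app f a => .app f fun i => (a i).subst σ

/-- The variable `v` occurs in the term. -/
def Tm.Occurs {S : Type} {ar : S → ℕ} {V : Type} (v : V) : Tm ar V → Prop
  | .var w => w = v
  | .app _ a => ∃ i, (a i).Occurs v

/-- One-step rewriting of ground terms by the rules of `R`, at any position. -/
inductive Step {S : Type} {ar : S → ℕ} {V : Type} (R : Set (Tm ar V × Tm ar V)) :
    Tm ar Empty → Tm ar Empty → Prop
  | root (l r : Tm ar V) (h : (l, r) ∈ R) (σ : V → Tm ar Empty) :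
      Step R (l.subst σ) (r.subst σ)
  | congr (f : S) (args : Fin (ar f) → Tm ar Empty) (i : Fin (ar f)) (u : Tm ar Empty) :
      Step R (args i) u → Step R (.app f args) (.app f (Function.update args i u))

/-- Positive formulas in the language with equality and one binary relation. -/
inductive PF : Type
  | eq (i j : ℕ)
  | rel (i j : ℕ)
  | and (φ ψ : PF)
  | or (φ ψ : PF)
  | all (i : ℕ) (φ : PF)
  | ex (i : ℕ) (φ : PF)

/-- Goedel numbering of positive formulas. -/
def PF.code : PF → ℕ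
  | .eq i j => Nat.pair 0 (Nat.pair i j)
  | .rel i j => Nat.pair 1 (Nat.pair i j)
  | .and φ ψ => Nat.pair 2 (Nat.pair φ.code ψ.code)
  | .or φ ψ => Nat.pair 3 (Nat.pair φ.code ψ.code)
  | .all i φ => Nat.pair 4 (Nat.pair i φ.code)
  | .ex i φ => Nat.pair 5 (Nat.pair i φ.code)

/-- The variable `n` is free in the formula. -/
def PF.Free (n : ℕ) : PF → Prop
  | .eq i j => i = n ∨ j = n
  | .rel i j => i = n ∨ j = n
  | .and φ ψ => φ.Free n ∨ ψ.Free n
  | .or φ ψ => φ.Free n ∨ ψ.Free n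
  | .all i φ => i ≠ n ∧ φ.Free n
  | .ex i φ => i ≠ n ∧ φ.Free n

/-- Satisfaction in the structure `(α, r)` under an assignment. -/
def PF.Sat {α : Type} (r : α → α → Prop) : PF → (ℕ → α) → Prop
  | .eq i j, ρ => ρ i = ρ j
  | .rel i j, ρ => r (ρ i) (ρ j)
  | .and φ ψ, ρ => φ.Sat r ρ ∧ ψ.Sat r ρ
  | .or φ ψ, ρ => φ.Sat r ρ ∨ ψ.Sat r ρ
  | .all i φ, ρ => ∀ a, φ.Sat r (Function.update ρ i a)
  | .ex i φ, ρ => ∃ a, φ.Sat r (Function.update ρ i a)

lemma PF.code_inj : Function.Injective PF.code := by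
  intro φ
  induction φ with
  | eq i j => intro ψ h; cases ψ <;> simp_all [PF.code]
  | rel i j => intro ψ h; cases ψ <;> simp_all [PF.code]
  | and a b iha ihb =>
    intro ψ h
    cases ψ <;> simp [PF.code] at h
    rw [iha h.1, ihb h.2]
  | or a b iha ihb =>
    intro ψ h
    cases ψ <;> simp [PF.code] at h
    rw [iha h.1, ihb h.2]
  | all i a ih =>
    intro ψ h
    cases ψ <;> simp [PF.code] at h
    rw [h.1, ih h.2]
  | ex i a ih =>
    intro ψ h
    cases ψ <;> simp [PF.code] at h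
    rw [h.1, ih h.2]

open LeadOne LeadCnt LeadPrim

/-! ### the sentences -/

def c2 (i : ℕ) : PF := .ex 10 (.and (.rel i 10) (.rel 10 i))
def c3 (i : ℕ) : PF := .ex 10 (.and (.rel i 10) (.ex 11 (.and (.rel 10 11) (.rel 11 i))))
def e1 : PF := .ex 4 (.and (.rel 1 4) (.and (c3 4) (.ex 5 (.and (.rel 4 5)
  (.ex 6 (.and (.rel 5 6) (.and (.rel 1 6) (c2 6))))))))
def neF (φ : PF) : PF := .or (.ex 3 (.and (.rel 2 3) (c2 3)))
  (.ex 3 (.and (.rel 2 3) (.and (c3 3) (.ex 2 (.and (.rel 3 2) (.and (.rel 2 0) φ))))))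
def ne : ℕ → PF
  | 0 => .ex 3 (.and (.rel 2 3) (c3 3))
  | n + 1 => neF (ne n)
def phiF (φ : PF) : PF := .ex 0 (.all 1 (.or (.eq 1 0) (.or (.rel 1 0) (.or (c2 1) (.or (c3 1)
  (.or e1 (.ex 2 (.and (.rel 1 2) (.and (.rel 2 0) φ)))))))))

lemma sat_ne {α : Type} (r : α → α → Prop) (n : ℕ) :
    ∀ ρ : ℕ → α, (ne n).Sat r ρ ↔ NE r (ρ 0) n (ρ 2) := by
  induction n with
  | zero => intro ρ; simp [ne, c3, PF.Sat, NE, C3]
  | succ n ih => intro ρ; simp [ne, neF, c2, c3, PF.Sat, NE, C2, C3, ih]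

lemma sat_phi {α : Type} (r : α → α → Prop) (n : ℕ) (ρ : ℕ → α) :
    (phiF (ne n)).Sat r ρ ↔ Phi r n := by
  simp [phiF, e1, c2, c3, PF.Sat, Phi, C2, C3, E1, E2, sat_ne]

lemma free_ne (i n : ℕ) : (ne n).Free i → i = 0 ∨ i = 2 := by
  induction n with
  | zero => simp only [ne, c3, PF.Free]; omega
  | succ n ih =>
    simp only [ne, neF, c2, c3, PF.Free]
    by_cases h : (ne n).Free i
    · have := ih h; omega
    · simp only [h, or_false]; omega

lemma free_phi (i n : ℕ) : ¬ (phiF (ne n)).Free i := by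
  simp only [phiF, e1, c2, c3, PF.Free]
  by_cases h : (ne n).Free i
  · have := free_ne i n h; omega
  · simp only [h, or_false]; omega

def Cx (F : PF → PF) : Prop := ∃ H : ℕ → ℕ, Primrec H ∧ ∀ φ, (F φ).code = H φ.code

lemma Cx.id : Cx fun φ => φ := ⟨fun c => c, Primrec.id, fun _ => rfl⟩

lemma Cx.wrap {F G : PF → PF} (a b : ℕ)
    (h : ∀ φ, (G φ).code = Nat.pair a (Nat.pair b (F φ).code)) (hF : Cx F) : Cx G := by
  obtain ⟨H, h1, h2⟩ := hF
  exact ⟨fun c => Nat.pair a (Nat.pair b (H c)), Primrec₂.natPair.comp (Primrec.const a)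
    (Primrec₂.natPair.comp (Primrec.const b) h1), fun φ => by rw [h, h2]⟩

lemma Cx.and {F : PF → PF} (ψ : PF) (hF : Cx F) : Cx fun φ => .and ψ (F φ) :=
  Cx.wrap 2 ψ.code (fun _ => by rw [PF.code]) hF
lemma Cx.or {F : PF → PF} (ψ : PF) (hF : Cx F) : Cx fun φ => .or ψ (F φ) :=
  Cx.wrap 3 ψ.code (fun _ => by rw [PF.code]) hF
lemma Cx.all {F : PF → PF} (i : ℕ) (hF : Cx F) : Cx fun φ => .all i (F φ) :=
  Cx.wrap 4 i (fun _ => by rw [PF.code]) hF
lemma Cx.ex {F : PF → PF} (i : ℕ) (hF : Cx F) : Cx fun φ => .ex i (F φ) :=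
  Cx.wrap 5 i (fun _ => by rw [PF.code]) hF

lemma cx_neF : Cx neF :=
  .or _ (.ex _ (.and _ (.and _ (.ex _ (.and _ (.and _ .id))))))

lemma cx_phiF : Cx phiF :=
  .ex _ (.all _ (.or _ (.or _ (.or _ (.or _ (.or _ (.ex _ (.and _ (.and _ .id)))))))))

lemma prim_code : Primrec fun n => (phiF (ne n)).code := by
  obtain ⟨H, h1, h2⟩ := cx_neF
  obtain ⟨H', h3, h4⟩ := cx_phiF
  obtain ⟨c, hc⟩ : ∃ c, c = (ne 0).code := ⟨_, rfl⟩
  have h5 : ∀ n, (ne n).code = H^[n] c := by
    intro n
    induction n with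
    | zero => exact hc.symm
    | succ n ih => rw [Function.iterate_succ_apply', ← ih, ← h2, ne]
  have h6 : Primrec fun n => H^[n] c :=
    Primrec.nat_iterate Primrec.id (Primrec.const c) (h1.comp Primrec.snd).to₂
  exact (h3.comp h6).of_eq fun n => by rw [h4, h5]

/-! ### the rewrite system -/

variable {K : ℕ} {T : Type}

def ar (K : ℕ) : S T → ℕ
  | .z => 0 | .e => 0 | .s => 1 | .P => 1 | .Q _ => 1 | .D _ => 1 | .M _ => 3 | .k _ => K + 1

section smart
variable {V : Type}
def tz : Tm (ar (T := T) K) V := .app .z ![]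
def te : Tm (ar (T := T) K) V := .app .e ![]
def ts (a : Tm (ar (T := T) K) V) : Tm (ar (T := T) K) V := .app .s ![a]
def tP (a : Tm (ar (T := T) K) V) : Tm (ar (T := T) K) V := .app .P ![a]
def tQ (i : Fin 3) (a : Tm (ar (T := T) K) V) : Tm (ar (T := T) K) V := .app (.Q i) ![a]
def tD (i : Fin 2) (a : Tm (ar (T := T) K) V) : Tm (ar (T := T) K) V := .app (.D i) ![a]
def tM (i : Fin 3) (a b w : Tm (ar (T := T) K) V) : Tm (ar (T := T) K) V := .app (.M i) ![a, b, w]
def tk (τ : T) (xs : Fin K → Tm (ar (T := T) K) V) (w : Tm (ar (T := T) K) V) :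
    Tm (ar (T := T) K) V := .app (.k τ) (Fin.cons w xs : Fin (K + 1) → _)
def tsp : ℕ → Tm (ar (T := T) K) V → Tm (ar (T := T) K) V
  | 0, a => a
  | n + 1, a => ts (tsp n a)

def mk : (f : S T) → (Fin (ar K f) → G K T) → G K T
  | .z, _ => .z
  | .e, _ => .e
  | .s, a => .s (a (0 : Fin 1))
  | .P, a => .P (a (0 : Fin 1))
  | .Q i, a => .Q i (a (0 : Fin 1))
  | .D i, a => .D i (a (0 : Fin 1))
  | .M i, a => .M i (a (0 : Fin 3)) (a (1 : Fin 3)) (a (2 : Fin 3))
  | .k τ, a => .k τ (fun j => a j.succ) (a (0 : Fin (K + 1)))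

def ev (ρ : V → G K T) : Tm (ar (T := T) K) V → G K T
  | .var v => ρ v
  | .app f a => mk f fun i => ev ρ (a i)

@[simp] lemma ev_var (ρ : V → G K T) (v : V) : ev ρ (.var v) = ρ v := rfl
@[simp] lemma ev_tz (ρ : V → G K T) : ev ρ tz = .z := rfl
@[simp] lemma ev_te (ρ : V → G K T) : ev ρ te = .e := rfl
@[simp] lemma ev_ts (ρ : V → G K T) (a) : ev ρ (ts a) = .s (ev ρ a) := rfl
@[simp] lemma ev_tP (ρ : V → G K T) (a) : ev ρ (tP a) = .P (ev ρ a) := rfl
@[simp] lemma ev_tQ (ρ : V → G K T) (i a) : ev ρ (tQ i a) = .Q i (ev ρ a) := rfl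
@[simp] lemma ev_tD (ρ : V → G K T) (i a) : ev ρ (tD i a) = .D i (ev ρ a) := rfl
@[simp] lemma ev_tM (ρ : V → G K T) (i a b w) :
    ev ρ (tM i a b w) = .M i (ev ρ a) (ev ρ b) (ev ρ w) := rfl
@[simp] lemma ev_tk (ρ : V → G K T) (τ xs w) :
    ev ρ (tk τ xs w) = .k τ (fun j => ev ρ (xs j)) (ev ρ w) := rfl
@[simp] lemma ev_tsp (ρ : V → G K T) (n a) : ev ρ (tsp n a) = sp n (ev ρ a) := by
  induction n with
  | zero => rfl
  | succ n ih => simp [tsp, sp, ih]

def ofG : G K T → Tm (ar (T := T) K) Empty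
  | .z => tz
  | .e => te
  | .s a => ts (ofG a)
  | .P a => tP (ofG a)
  | .Q i a => tQ i (ofG a)
  | .D i a => tD i (ofG a)
  | .M i a b w => tM i (ofG a) (ofG b) (ofG w)
  | .k τ xs w => tk τ (fun j => ofG (xs j)) (ofG w)

lemma ofG_mk (f : S T) (a : Fin (ar K f) → G K T) :
    ofG (mk f a) = .app f fun i => ofG (a i) := by
  cases f with
  | k τ =>
    simp only [mk, ofG, tk]
    congr 1
    funext i
    refine Fin.cases rfl (fun j => rfl) i
  | z => simp only [mk, ofG, tz]; congr 1; funext i; exact Fin.elim0 i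
  | e => simp only [mk, ofG, te]; congr 1; funext i; exact Fin.elim0 i
  | M i =>
    simp only [mk, ofG, tM]
    congr 1
    funext (i : Fin 3)
    fin_cases i <;> rfl
  | _ =>
    simp only [mk, ofG, ts, tP, tQ, tD]
    congr 1
    funext (i : Fin 1)
    fin_cases i
    rfl

lemma ofG_ev (ρ : V → G K T) (t : Tm (ar (T := T) K) V) :
    ofG (ev ρ t) = t.subst fun v => ofG (ρ v) := by
  induction t with
  | var v => rfl
  | app f a ih => simp only [ev, ofG_mk, Tm.subst, ih]

lemma ev_subst {W : Type} (ρ : W → G K T) (σ : V → Tm (ar (T := T) K) W)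
    (t : Tm (ar (T := T) K) V) : ev ρ (t.subst σ) = ev (fun v => ev ρ (σ v)) t := by
  induction t with
  | var v => rfl
  | app f a ih => simp only [ev, Tm.subst, ih]

end smart

def toG : Tm (ar (T := T) K) Empty → G K T := ev Empty.elim

lemma toG_ofG (a : G K T) : toG (ofG a) = a := by
  unfold toG
  induction a <;> simp_all [ofG]

lemma ofG_toG (t : Tm (ar (T := T) K) Empty) : ofG (toG t) = t := by
  unfold toG
  induction t with
  | var v => exact v.elim
  | app f a ih => simp only [ev, ofG_mk, ih]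

abbrev Vr (K : ℕ) := Fin K ⊕ Fin K ⊕ Bool

def vx (j : Fin K) : Tm (ar (T := T) K) (Vr K) := .var (.inl j)
def vy (j : Fin K) : Tm (ar (T := T) K) (Vr K) := .var (.inr (.inl j))
def va : Tm (ar (T := T) K) (Vr K) := .var (.inr (.inr false))
def vw : Tm (ar (T := T) K) (Vr K) := .var (.inr (.inr true))

def ncp : Option (Option T) → Tm (ar (T := T) K) (Vr K)
  | none => te
  | some none => tP va
  | some (some τ) => tk τ vy va

def nsp : Option Bool → Tm (ar (T := T) K) (Vr K)
  | none => tz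
  | some true => ts va
  | some false => tP va

def jkp : Option (Option T) ⊕ (T × Fin K × Option (Option T)) ⊕ (T × Option Bool) →
    Tm (ar (T := T) K) (Vr K)
  | .inl c => ts (ncp c)
  | .inr (.inl (τ, j, c)) => tk τ (Function.update vx j (ncp c)) vw
  | .inr (.inr (τ, c)) => tk τ vx (nsp c)

inductive Ix (K : ℕ) (T : Type) (r : T) : Type
  | topE | topS | topP | topK (τ : {τ : T // τ ≠ r})
  | cycD (i : Fin 2) | cycQ (i : Fin 3) | cycM (i : Fin 3)
  | eqM | rootP | decP | retQ | zeroP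
  | testM (τ τ' : T) (j : Fin K) | testD (τ τ' : T) | endM (τ : T) | endD (τ : T)
  | junkM (c : Option (Option T) ⊕ (T × Fin K × Option (Option T)) ⊕ (T × Option Bool))
  | junkD (c : Option (Option T) ⊕ (T × Fin K × Option (Option T)) ⊕ (T × Option Bool))

instance [Finite T] (r : T) : Finite (Ix K T r) := Finite.of_equiv _ (proxy_equiv% (Ix K T r))
instance [Finite T] : Finite (S T) := Finite.of_equiv _ (proxy_equiv% (S T))

def rule (C : CM K T) : Ix K T C.r → Tm (ar (T := T) K) (Vr K) × Tm (ar (T := T) K) (Vr K)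
  | .topE => (te, tz)
  | .topS => (ts va, tz)
  | .topP => (tP va, tz)
  | .topK τ => (tk τ.1 vx vw, tz)
  | .cycD i => (tD i va, tD (i + 1) va)
  | .cycQ i => (tQ i va, tQ (i + 1) va)
  | .cycM i => (tM i va (vx C.j0) vw, tM (i + 1) va (vx C.j0) vw)
  | .eqM => (tM 0 va va vw, tD 0 vw)
  | .rootP => (tk C.r vx vw, tP (vx C.j0))
  | .decP => (tP (ts va), tQ 0 va)
  | .retQ => (tQ 0 va, tP va)
  | .zeroP => (tP tz, tD 0 tz)
  | .testM τ τ' j => (tk τ vx (tk τ' vy vw), tk τ (fun _ => tz)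
      (tM 0 (tsp (C.be τ j) (if C.zt τ j then tz else vx j))
        (tsp (C.al τ' j) (if C.zt τ' j then tz else vy j)) vw))
  | .testD τ τ' => (tk τ vx (tk τ' vy vw), tk τ (fun _ => tz) (tD 0 vw))
  | .endM τ => (tk τ vx te, tk τ (fun _ => tz)
      (tM 0 (tsp (C.be τ C.jh) (if C.zt τ C.jh then tz else vx C.jh)) (tsp C.h tz) tz))
  | .endD τ => (tk τ vx te, tk τ (fun _ => tz) (tD 0 tz))
  | .junkM c => (jkp c, tM 0 tz (ts tz) tz)
  | .junkD c => (jkp c, tD 0 tz)

lemma nc_ev (ρ : Vr K → G K T) (c : Option (Option T)) : NC (ev ρ (ncp c)) := by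
  rcases c with _ | _ | τ <;> constructor

lemma jk_ev (ρ : Vr K → G K T) (c) : Jk (ev ρ (jkp (K := K) (T := T) c)) := by
  rcases c with c | ⟨τ, j, c⟩ | ⟨τ, c⟩
  · exact .s _ (nc_ev ρ c)
  · exact .kc _ _ _ j (by simpa using nc_ev ρ c)
  · refine .kw _ _ _ ?_
    rcases c with _ | _ | _ <;> constructor

lemma ev_ite {V : Type} (ρ : V → G K T) (b : Bool) (a : Tm (ar (T := T) K) V) :
    ev ρ (if b then tz else a) = if b then .z else ev ρ a := by
  cases b <;> rfl

lemma st_rule (C : CM K T) (ρ : Vr K → G K T) (i : Ix K T C.r) :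
    St C (ev ρ (rule C i).1) (ev ρ (rule C i).2) := by
  cases i with
  | topK τ => exact .topK _ _ _ τ.2
  | testM τ τ' j =>
    simp only [rule, ev_tk, ev_tM, ev_tsp, ev_tz, ev_ite]
    exact .testM _ _ _ _ _ _
  | endM τ =>
    simp only [rule, ev_tk, ev_tM, ev_tsp, ev_tz, ev_ite, ev_te]
    exact .endM _ _
  | junkM c => exact .junkM _ (jk_ev ρ c)
  | junkD c => exact .junkD _ (jk_ev ρ c)
  | topE => exact .topE
  | topS => exact .topS _
  | topP => exact .topP _
  | cycD => exact .cycD _ _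
  | cycQ => exact .cycQ _ _
  | cycM => exact .cycM _ _ _ _
  | eqM => exact .eqM _ _
  | rootP => exact .rootP _ _
  | decP => exact .decP _
  | retQ => exact .retQ _
  | zeroP => exact .zeroP
  | testD => exact .testD _ _ _ _ _
  | endD => exact .endD _ _

lemma st_mk (C : CM K T) (f : S T) (a : Fin (ar K f) → G K T) (i : Fin (ar K f)) (u : G K T)
    (h : St C (a i) u) : St C (mk f a) (mk f (Function.update a i u)) := by
  cases f with
  | z => exact Fin.elim0 i
  | e => exact Fin.elim0 i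
  | k τ =>
    revert h
    refine Fin.cases (fun h => ?_) (fun j h => ?_) i
    · have : mk (.k τ) (Function.update a (0 : Fin (K + 1)) u) =
          .k τ (fun j => a j.succ) u := by
        simp only [mk]
        congr 1
      rw [this]
      exact .ck2 _ _ h
    · have : mk (.k τ) (Function.update a j.succ u) =
          .k τ (Function.update (fun j => a j.succ) j u) (a (0 : Fin (K + 1))) := by
        simp only [mk]
        congr 1
        funext j'
        by_cases hj : j' = j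
        · subst hj; simp
        · rw [Function.update_of_ne hj, Function.update_of_ne]
          exact fun h => hj (Fin.succ_injective _ h)
      rw [this]
      exact .ck1 _ _ _ j u h
  | M m =>
    revert h
    revert a
    change ∀ a : Fin 3 → G K T, _
    change Fin 3 at i
    fin_cases i <;> intro a h
    · exact .cM1 _ _ _ h
    · exact .cM2 _ _ _ h
    · exact .cM3 _ _ _ h
  | s => obtain rfl : i = (0 : Fin 1) := Subsingleton.elim (α := Fin 1) _ _; exact .cs h
  | P => obtain rfl : i = (0 : Fin 1) := Subsingleton.elim (α := Fin 1) _ _; exact .cP h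
  | Q => obtain rfl : i = (0 : Fin 1) := Subsingleton.elim (α := Fin 1) _ _; exact .cQ _ h
  | D => obtain rfl : i = (0 : Fin 1) := Subsingleton.elim (α := Fin 1) _ _; exact .cD _ h

lemma st_of_step (C : CM K T) {a b : Tm (ar (T := T) K) Empty}
    (h : Step (Set.range (rule C)) a b) : St C (toG a) (toG b) := by
  unfold toG
  induction h with
  | root l r h σ =>
    obtain ⟨i, hi⟩ := h
    have := st_rule C (fun v => ev Empty.elim (σ v)) i
    rw [hi] at this
    simpa only [ev_subst] using this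
  | congr f args i u _ ih =>
    have := st_mk C f (fun j => ev Empty.elim (args j)) i _ ih
    simp only [ev]
    convert this using 2
    funext j
    by_cases hj : j = i
    · subst hj; simp
    · simp [hj]

def rho (xs ys : Fin K → G K T) (a w : G K T) : Vr K → G K T
  | .inl j => xs j
  | .inr (.inl j) => ys j
  | .inr (.inr false) => a
  | .inr (.inr true) => w

lemma step_rule (C : CM K T) (i : Ix K T C.r) (ρ : Vr K → G K T) {a b : G K T}
    (ha : ev ρ (rule C i).1 = a) (hb : ev ρ (rule C i).2 = b) :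
    Step (Set.range (rule C)) (ofG a) (ofG b) := by
  rw [← ha, ← hb, ofG_ev, ofG_ev]
  exact Step.root (R := Set.range (rule C)) _ _ (Set.mem_range_self i) _

lemma nc_pat {g : G K T} (h : NC g) :
    ∃ (c : Option (Option T)) (ys : Fin K → G K T) (a : G K T), ∀ xs w,
      ev (rho xs ys a w) (ncp c) = g := by
  cases h with
  | e => exact ⟨none, fun _ => .z, .z, fun _ _ => rfl⟩
  | P a => exact ⟨some none, fun _ => .z, a, fun _ _ => rfl⟩
  | k τ xs w => exact ⟨some (some τ), xs, w, fun _ _ => rfl⟩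

lemma jk_pat {g : G K T} (h : Jk g) : ∃ c ρ, ev ρ (jkp c) = g := by
  cases h with
  | s g h =>
    obtain ⟨c, ys, a, h⟩ := nc_pat h
    exact ⟨.inl c, rho ys ys a a, by simp [jkp, h]⟩
  | kc τ xs w j h =>
    obtain ⟨c, ys, a, h⟩ := nc_pat h
    refine ⟨.inr (.inl (τ, j, c)), rho xs ys a w, ?_⟩
    simp only [jkp, ev_tk]
    congr 1
    funext i
    by_cases hi : i = j
    · subst hi; simp [h]
    · rw [Function.update_of_ne hi]; rfl
  | kw τ xs w h =>
    cases h with
    | z => exact ⟨.inr (.inr (τ, none)), rho xs xs .z .z, rfl⟩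
    | s a => exact ⟨.inr (.inr (τ, some true)), rho xs xs a .z, rfl⟩
    | P a => exact ⟨.inr (.inr (τ, some false)), rho xs xs a .z, rfl⟩

lemma Step.congr' {S : Type} {ar : S → ℕ} {V : Type} {R : Set (Tm ar V × Tm ar V)} (f : S)
    (a a' : Fin (ar f) → Tm ar Empty) (i : Fin (ar f)) (h : Step R (a i) (a' i))
    (h' : ∀ j, j ≠ i → a' j = a j) : Step R (.app f a) (.app f a') := by
  have : a' = Function.update a i (a' i) := by
    funext j
    by_cases hj : j = i
    · subst hj; simp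
    · rw [Function.update_of_ne hj, h' j hj]
  rw [this]
  exact .congr f a i _ h

lemma step_of_st (C : CM K T) {a b : G K T} (h : St C a b) :
    Step (Set.range (rule C)) (ofG a) (ofG b) := by
  have u1 : ∀ j : Fin 1, ∀ p : Prop, j ≠ 0 → p := fun j p h => absurd (Subsingleton.elim _ _) h
  induction h with
  | topE => exact step_rule C .topE (fun _ => .z) rfl rfl
  | topS a => exact step_rule C .topS (fun _ => a) rfl rfl
  | topP a => exact step_rule C .topP (fun _ => a) rfl rfl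
  | topK τ xs w h => exact step_rule C (.topK ⟨τ, h⟩) (rho xs xs w w) rfl rfl
  | cycD i a => exact step_rule C (.cycD i) (fun _ => a) rfl rfl
  | cycQ i a => exact step_rule C (.cycQ i) (fun _ => a) rfl rfl
  | cycM i a b w => exact step_rule C (.cycM i) (rho (fun _ => b) (fun _ => b) a w) rfl rfl
  | eqM a w => exact step_rule C .eqM (rho (fun _ => a) (fun _ => a) a w) rfl rfl
  | rootP xs w => exact step_rule C .rootP (rho xs xs w w) rfl rfl
  | decP a => exact step_rule C .decP (fun _ => a) rfl rfl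
  | retQ a => exact step_rule C .retQ (fun _ => a) rfl rfl
  | zeroP => exact step_rule C .zeroP (fun _ => .z) rfl rfl
  | testM τ xs τ' xs' w j =>
    refine step_rule C (.testM τ τ' j) (rho xs xs' w w) rfl ?_
    simp only [rule, ev_tk, ev_tM, ev_tsp, ev_tz, ev_ite]
    rfl
  | testD τ xs τ' xs' w => exact step_rule C (.testD τ τ') (rho xs xs' w w) rfl rfl
  | endM τ xs =>
    refine step_rule C (.endM τ) (rho xs xs .z .z) rfl ?_
    simp only [rule, ev_tk, ev_tM, ev_tsp, ev_tz, ev_ite]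
    rfl
  | endD τ xs => exact step_rule C (.endD τ) (rho xs xs .z .z) rfl rfl
  | junkM t h =>
    obtain ⟨c, ρ, h⟩ := jk_pat h
    exact step_rule C (.junkM c) ρ h rfl
  | junkD t h =>
    obtain ⟨c, ρ, h⟩ := jk_pat h
    exact step_rule C (.junkD c) ρ h rfl
  | cs _ ih => exact .congr' _ _ _ (0 : Fin 1) ih fun j => u1 j _
  | cP _ ih => exact .congr' _ _ _ (0 : Fin 1) ih fun j => u1 j _
  | cQ _ _ ih => exact .congr' _ _ _ (0 : Fin 1) ih fun j => u1 j _
  | cD _ _ ih => exact .congr' _ _ _ (0 : Fin 1) ih fun j => u1 j _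
  | cM1 _ _ _ _ ih =>
    refine .congr' _ _ _ (0 : Fin 3) ih fun (j : Fin 3) hj => ?_
    fin_cases j <;> first | rfl | exact absurd rfl hj
  | cM2 _ _ _ _ ih =>
    refine .congr' _ _ _ (1 : Fin 3) ih fun (j : Fin 3) hj => ?_
    fin_cases j <;> first | rfl | exact absurd rfl hj
  | cM3 _ _ _ _ ih =>
    refine .congr' _ _ _ (2 : Fin 3) ih fun (j : Fin 3) hj => ?_
    fin_cases j <;> first | rfl | exact absurd rfl hj
  | ck1 τ xs w j u _ ih =>
    refine .congr' _ _ _ (j.succ : Fin (K + 1)) (by simpa using ih) fun (i : Fin (K + 1)) => ?_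
    refine Fin.cases (fun _ => rfl) (fun i hi => ?_) i
    have : i ≠ j := fun h => hi (by rw [h])
    simp [this]
  | ck2 τ xs _ ih =>
    refine .congr' _ _ _ (0 : Fin (K + 1)) ih fun (i : Fin (K + 1)) => ?_
    exact Fin.cases (fun h => absurd rfl h) (fun i _ => rfl) i

section occ
variable {V : Type} (v : V)
@[simp] lemma oc_tz : (tz : Tm (ar (T := T) K) V).Occurs v ↔ False :=
  ⟨fun ⟨i, _⟩ => Fin.elim0 i, False.elim⟩
@[simp] lemma oc_ts (a : Tm (ar (T := T) K) V) : (ts a).Occurs v ↔ a.Occurs v :=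
  Fin.exists_fin_one
@[simp] lemma oc_tP (a : Tm (ar (T := T) K) V) : (tP a).Occurs v ↔ a.Occurs v :=
  Fin.exists_fin_one
@[simp] lemma oc_tQ (i) (a : Tm (ar (T := T) K) V) : (tQ i a).Occurs v ↔ a.Occurs v :=
  Fin.exists_fin_one
@[simp] lemma oc_tD (i) (a : Tm (ar (T := T) K) V) : (tD i a).Occurs v ↔ a.Occurs v :=
  Fin.exists_fin_one
@[simp] lemma oc_tM (i) (a b w : Tm (ar (T := T) K) V) :
    (tM i a b w).Occurs v ↔ a.Occurs v ∨ b.Occurs v ∨ w.Occurs v := by
  change (∃ i : Fin 3, _) ↔ _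
  simp [Fin.exists_fin_succ]
@[simp] lemma oc_tk (τ : T) (xs : Fin K → Tm (ar (T := T) K) V) (w) :
    (tk τ xs w).Occurs v ↔ w.Occurs v ∨ ∃ j, (xs j).Occurs v :=
  Fin.exists_fin_succ
@[simp] lemma oc_tsp (n) (a : Tm (ar (T := T) K) V) : (tsp n a).Occurs v ↔ a.Occurs v := by
  induction n with
  | zero => rfl
  | succ n ih => simp [tsp, ih]
lemma oc_ite (b : Bool) (a : Tm (ar (T := T) K) V) (h : (if b then tz else a).Occurs v) :
    a.Occurs v := by
  cases b
  · exact h
  · simp at h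
end occ

lemma rule_ok (C : CM K T) (i : Ix K T C.r) :
    (∀ v, (rule C i).1 ≠ .var v) ∧ ∀ v, (rule C i).2.Occurs v → (rule C i).1.Occurs v := by
  refine ⟨fun v => ?_, fun v => ?_⟩
  · cases i with
    | junkM c => rcases c with c | ⟨τ, j, c⟩ | ⟨τ, c⟩ <;> simp [rule, jkp, ts, tk]
    | junkD c => rcases c with c | ⟨τ, j, c⟩ | ⟨τ, c⟩ <;> simp [rule, jkp, ts, tk]
    | _ => simp [rule, te, ts, tP, tQ, tD, tM, tk]
  · cases i with
    | rootP => simp only [rule, oc_tk, oc_tP]; exact fun h => .inr ⟨_, h⟩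
    | testM τ τ' j =>
      simp only [rule, oc_tk, oc_tM, oc_tsp, oc_tz]
      rintro ((h | h | h) | ⟨_, h⟩)
      · exact .inr ⟨_, oc_ite _ _ _ h⟩
      · exact .inl (.inr ⟨_, oc_ite _ _ _ h⟩)
      · exact .inl (.inl h)
      · exact h.elim
    | endM τ =>
      simp only [rule, oc_tk, oc_tM, oc_tsp, oc_tz]
      rintro ((h | h | h) | ⟨_, h⟩)
      · exact .inr ⟨_, oc_ite _ _ _ h⟩
      all_goals exact h.elim
    | _ => simp [rule] <;> tauto

/-- There are a finite signature with a constant and a finite rewrite system whose positive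
theory of one-step rewriting is undecidable. -/
theorem result : Function.Injective PF.code ∧
    ∃ (S : Type) (_ : Finite S) (ar : S → ℕ) (_ : ∃ c, ar c = 0) (V : Type)
      (R : Set (Tm ar V × Tm ar V)), R.Finite ∧
      (∀ p ∈ R, (∀ v, p.1 ≠ .var v) ∧ ∀ v, p.2.Occurs v → p.1.Occurs v) ∧
      ¬ ∃ g : ℕ → Bool, Computable g ∧ ∀ φ : PF, (∀ n, ¬ φ.Free n) →
        (g φ.code = true ↔ ∀ ρ : ℕ → Tm ar Empty, φ.Sat (Step R) ρ) := by
  refine ⟨PF.code_inj, ?_⟩
  obtain ⟨K, T, fT, C, f, -, hf, hu⟩ := exists_cm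
  refine ⟨S T, inferInstance, ar K, ⟨.z, rfl⟩, Vr K, Set.range (rule C), Set.finite_range _, ?_, ?_⟩
  · rintro p ⟨i, rfl⟩
    exact rule_ok C i
  · rintro ⟨g, hg, h⟩
    have key : ∀ n, g (phiF (ne n)).code = true ↔ ¬ C.Acc n := by
      intro n
      rw [h _ fun i => free_phi i n, ← phi_iff]
      simp only [sat_phi]
      constructor
      · intro h
        exact (h fun _ => tz).map toG (fun _ _ => st_of_step C) fun a => ⟨_, toG_ofG a⟩
      · intro h _
        exact h.map ofG (fun _ _ => step_of_st C) fun a => ⟨_, ofG_toG a⟩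
    refine hu (ComputablePred.computable_iff.2
      ⟨fun n => !g (phiF (ne (f n))).code, ?_, ?_⟩)
    · exact Primrec.not.to_comp.comp (hg.comp (prim_code.comp hf).to_comp)
    · funext n
      have h1 := key (f n)
      clear key h hu
      by_cases h : C.Acc (f n) <;> cases hg : g (phiF (ne (f n))).code <;> simp_all

end Pool.Agent.Results.MP_342291_lc.Positive
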